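import Pool.Agent.R302.SchF

namespace Pool.Agent.Results.MP_fc9cb6_an.Schatten

open Pool.Agent.R302.SemiAmenDef Pool.Agent.R302.SchattenDef

universe u v w

/-- Let `H` be an infinite-dimensional separable complex Hilbert space, `p ≥ 1`, and let the Banach
algebra `A` be the Schatten class `S_p` on `H`. If `p = 1` then `A` is approximately semi-amenable,
and if `p > 1` then `A` is not approximately semi-amenable. -/
theorem _root_.Pool.Agent.Results.MP_fc9cb6_an.Schatten.result
    {H : Type u} [NormedAddCommGroup H] [InnerProductSpace ℂ H] [CompleteSpace H]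
    [TopologicalSpace.SeparableSpace H] (hH : ¬ FiniteDimensional ℂ H) (p : ℝ)
    {A : Type v} [NonUnitalNormedRing A] [NormedSpace ℂ A] [CompleteSpace A]
    [IsScalarTower ℂ A A] [SMulCommClass ℂ A A] (ι : A →ₗ[ℂ] (H →L[ℂ] H))
    (hA : IsSchattenClass p A ι) :
    (p = 1 → IsApproxSemiAmenable.{v, w} A) ∧ (1 < p → ¬ IsApproxSemiAmenable.{v, v} A) :=
  Pool.Agent.R302.SchF.main hH hA

end Pool.Agent.Results.MP_fc9cb6_an.Schatten
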